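import Pool.Agent.H53.GM.Targets2
import Mathlib.Combinatorics.HalesJewett

/-!
# Forbidden coloured patterns: the partite lemma (row PL of the board `gm2_modules`)
-/

set_option autoImplicit false
set_option linter.unusedVariables false

namespace Pool.Agent.H21.GM

open Pool.Agent.H68.BP Pool.Agent.H58.SF Pool.Agent.H53.GC Pool.Agent.H53.GR Pool.Agent.H53.GM
open Classical

noncomputable section

section

variable {Q 𝒦 P : Type} (C : Sy Q 𝒦 P) (α : Finset Q) (κ₀ : 𝒦)

/-- the guards over `α` with the label `κ₀` -/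
def Gam : Type := {g : Finset P // C.gd g κ₀ ∧ g.image C.pt = α}

variable {C α κ₀}

/-- the element of `g` over `a` -/
theorem sel_ex (g : Gam C α κ₀) {a : Q} (ha : a ∈ α) : ∃ y ∈ g.1, C.pt y = a := by
  rw [← g.2.2] at ha
  exact Finset.mem_image.1 ha

/-- the element of `g` over the part of `x` -/
def sel (g : Gam C α κ₀) (x : P) : P :=
  if h : C.pt x ∈ α then (sel_ex g h).choose else x

theorem sel_mem (g : Gam C α κ₀) {x : P} (h : C.pt x ∈ α) : sel g x ∈ g.1 ∧
    C.pt (sel g x) = C.pt x := by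
  unfold sel
  rw [dif_pos h]
  exact (sel_ex g h).choose_spec

theorem sel_pt (g : Gam C α κ₀) (x : P) : C.pt (sel g x) = C.pt x := by
  by_cases h : C.pt x ∈ α
  · exact (sel_mem g h).2
  · unfold sel
    rw [dif_neg h]

theorem sel_self {K : Cls Q 𝒦} (hC : IsSys K C) (g : Gam C α κ₀) {x : P} (hx : x ∈ g.1) :
    sel g x = x := by
  have h : C.pt x ∈ α := by
    rw [← g.2.2]
    exact Finset.mem_image_of_mem _ hx
  exact hC.tr g.1 κ₀ g.2.1 (sel_mem g h).1 hx (sel_mem g h).2

theorem sel_congr (g : Gam C α κ₀) {x y : P} (hx : C.pt x ∈ α) (h : C.pt x = C.pt y) :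
    sel g x = sel g y := by
  have hy : C.pt y ∈ α := h ▸ hx
  unfold sel
  rw [dif_pos hx, dif_pos hy]
  congr 1
  funext z
  rw [h]

/-- a coordinate -/
def crd (o : Option (Gam C α κ₀)) (x : P) : P :=
  match o with
  | none => x
  | some g => sel g x

theorem crd_pt (o : Option (Gam C α κ₀)) (x : P) : C.pt (crd o x) = C.pt x := by
  cases o with
  | none => rfl
  | some g => exact sel_pt g x

/-- the image of a guard in a coordinate -/
theorem crd_gd {K : Cls Q 𝒦} (hC : IsSys K C) {g : Finset P} {κ : 𝒦} (hg : C.gd g κ)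
    (hα : ∀ x ∈ g, C.pt x ∈ α) (o : Option (Gam C α κ₀)) :
    (o = none ∧ g.image (crd o) = g) ∨
      C.gd (g.image (crd o)) (K.rs (g.image C.pt) κ₀) := by
  cases o with
  | none =>
    left
    refine ⟨rfl, ?_⟩
    show g.image (fun x => x) = g
    exact Finset.image_id'
  | some h =>
    right
    have h1 : g.image (crd (some h)) ⊆ h.1 := by
      intro y hy
      obtain ⟨x, hx, rfl⟩ := Finset.mem_image.1 hy
      exact (sel_mem h (hα x hx)).1
    have h2 := hC.dn h.1 κ₀ _ h.2.1 h1
    have h3 : (g.image (crd (some h))).image C.pt = g.image C.pt := by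
      rw [Finset.image_image]
      refine Finset.image_congr fun x _ => ?_
      exact sel_pt h x
    rw [h3] at h2
    exact h2

variable (C α κ₀) in
/-- the new elements -/
inductive PP (ι : Type) : Type
  | w (f : ι → P) : PP ι
  | r (x : P) (L : Combinatorics.Line (Gam C α κ₀) ι) : PP ι

variable {ι : Type}

/-- the projection to a coordinate -/
def psi (i : ι) : PP C α κ₀ ι → P
  | PP.w f => f i
  | PP.r x _ => x

theorem w_ne_r {f : ι → P} {x : P} {L : Combinatorics.Line (Gam C α κ₀) ι} {p : Prop}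
    (h : PP.w f = PP.r x L) : p := by cases h

theorem r_ne_w {f : ι → P} {x : P} {L : Combinatorics.Line (Gam C α κ₀) ι} {p : Prop}
    (h : PP.r x L = PP.w f) : p := by cases h

/-- the copy of `C` given by a line -/
def ph (L : Combinatorics.Line (Gam C α κ₀) ι) (x : P) : PP C α κ₀ ι :=
  if C.pt x ∈ α then PP.w fun i => crd (L.idxFun i) x else PP.r x L

theorem ph_pos (L : Combinatorics.Line (Gam C α κ₀) ι) {x : P} (h : C.pt x ∈ α) :
    ph L x = PP.w fun i => crd (L.idxFun i) x := if_pos h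

theorem ph_neg (L : Combinatorics.Line (Gam C α κ₀) ι) {x : P} (h : C.pt x ∉ α) :
    ph L x = PP.r x L := if_neg h

theorem ph_inj (L : Combinatorics.Line (Gam C α κ₀) ι) : Function.Injective (ph L) := by
  intro x y h
  obtain ⟨i, hi⟩ := L.proper
  by_cases hx : C.pt x ∈ α
  · by_cases hy : C.pt y ∈ α
    · rw [ph_pos L hx, ph_pos L hy] at h
      have h1 := congrFun (PP.w.inj h) i
      rw [hi] at h1
      exact h1
    · rw [ph_pos L hx, ph_neg L hy] at h
      exact w_ne_r h
  · by_cases hy : C.pt y ∈ α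
    · rw [ph_neg L hx, ph_pos L hy] at h
      exact r_ne_w h
    · rw [ph_neg L hx, ph_neg L hy] at h
      exact (PP.r.inj h).1

variable (C α κ₀) in
/-- the new system -/
def CC (i₀ : ι) : Sy Q 𝒦 (PP C α κ₀ ι) where
  pt := fun y => C.pt (psi i₀ y)
  gd := fun G κ => ∃ (L : Combinatorics.Line (Gam C α κ₀) ι) (g : Finset P), C.gd g κ ∧
    G = g.image (ph L)

theorem pt_ph (i₀ : ι) (L : Combinatorics.Line (Gam C α κ₀) ι) (x : P) :
    (CC C α κ₀ i₀).pt (ph L x) = C.pt x := by
  by_cases h : C.pt x ∈ α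
  · rw [ph_pos L h]
    exact crd_pt _ x
  · rw [ph_neg L h]
    rfl

theorem image_ph (i₀ : ι) (L : Combinatorics.Line (Gam C α κ₀) ι) (g : Finset P) :
    (g.image (ph L)).image (CC C α κ₀ i₀).pt = g.image C.pt := by
  rw [Finset.image_image]
  exact Finset.image_congr fun x _ => pt_ph i₀ L x

/-- the label of a guard is unique -/
theorem un_aux {K : Cls Q 𝒦} (hC : IsSys K C) {L L' : Combinatorics.Line (Gam C α κ₀) ι}
    {g g' : Finset P} {κ κ' : 𝒦} (hg : C.gd g κ) (hg' : C.gd g' κ')
    (h : g.image (ph L) = g'.image (ph L')) (hp : g.image C.pt = g'.image C.pt) : κ = κ' := by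
  by_cases hα : ∀ x ∈ g, C.pt x ∈ α
  · have hα' : ∀ x ∈ g', C.pt x ∈ α := by
      intro x hx
      have : C.pt x ∈ g.image C.pt := by
        rw [hp]
        exact Finset.mem_image_of_mem _ hx
      obtain ⟨y, hy, hyx⟩ := Finset.mem_image.1 this
      rw [← hyx]
      exact hα y hy
    -- the coordinates
    have key : ∀ i, g.image (crd (L.idxFun i)) = g'.image (crd (L'.idxFun i)) := by
      have hsub : ∀ {L L' : Combinatorics.Line (Gam C α κ₀) ι} {g g' : Finset P},
          (∀ x ∈ g, C.pt x ∈ α) → (∀ x ∈ g', C.pt x ∈ α) → g.image (ph L) = g'.image (ph L') →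
          ∀ i, g.image (crd (L.idxFun i)) ⊆ g'.image (crd (L'.idxFun i)) := by
        intro L L' g g' h1 h2 h3 i y hy
        obtain ⟨x, hx, rfl⟩ := Finset.mem_image.1 hy
        have h4 : ph L x ∈ g'.image (ph L') := by
          rw [← h3]
          exact Finset.mem_image_of_mem _ hx
        obtain ⟨x', hx', h5⟩ := Finset.mem_image.1 h4
        rw [ph_pos L (h1 x hx), ph_pos L' (h2 x' hx')] at h5
        have h6 := congrFun (PP.w.inj h5) i
        rw [← h6]
        exact Finset.mem_image_of_mem _ hx'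
      exact fun i => Finset.Subset.antisymm (hsub hα hα' h i) (hsub hα' hα h.symm i)
    obtain ⟨i, hi⟩ := L.proper
    obtain ⟨i', hi'⟩ := L'.proper
    have e1 : g.image (crd (L.idxFun i)) = g := by
      rw [hi]
      exact Finset.image_id'
    have e2 : g'.image (crd (L'.idxFun i')) = g' := by
      rw [hi']
      exact Finset.image_id'
    rcases crd_gd hC hg' hα' (L'.idxFun i) with ⟨h1, h2⟩ | h1
    · have h3 : g = g' := by rw [← e1, key i, h2]
      rw [← h3] at hg'
      exact hC.un g κ κ' hg hg'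
    · rw [← key i, e1] at h1
      have h2 := hC.un g _ _ hg h1
      rcases crd_gd hC hg hα (L.idxFun i') with ⟨h3, h4⟩ | h3
      · have h5 : g = g' := by rw [← e2, ← key i', h4]
        rw [← h5] at hg'
        exact hC.un g κ κ' hg hg'
      · rw [key i', e2] at h3
        have h4 := hC.un g' _ _ hg' h3
        rw [h2, h4, hp]
  · push Not at hα
    obtain ⟨x, hx, hxα⟩ := hα
    have h1 : ph L x ∈ g'.image (ph L') := by
      rw [← h]
      exact Finset.mem_image_of_mem _ hx
    obtain ⟨x', hx', h2⟩ := Finset.mem_image.1 h1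
    rw [ph_neg L hxα] at h2
    have hL : L = L' := by
      by_cases h3 : C.pt x' ∈ α
      · rw [ph_pos L' h3] at h2
        exact w_ne_r h2
      · rw [ph_neg L' h3] at h2
        exact (PP.r.inj h2).2.symm
    subst hL
    have h3 : g = g' := Finset.image_injective (ph_inj L) h
    rw [← h3] at hg'
    exact hC.un g κ κ' hg hg'

theorem sys {K : Cls Q 𝒦} (hC : IsSys K C) (i₀ : ι) : IsSys K (CC C α κ₀ i₀) where
  tr := by
    rintro G κ ⟨L, g, hg, rfl⟩ y hy z hz hyz
    obtain ⟨x, hx, rfl⟩ := Finset.mem_image.1 (Finset.mem_coe.1 hy)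
    obtain ⟨x', hx', rfl⟩ := Finset.mem_image.1 (Finset.mem_coe.1 hz)
    rw [pt_ph, pt_ph] at hyz
    rw [hC.tr g κ hg hx hx' hyz]
  dn := by
    rintro G κ G' ⟨L, g, hg, rfl⟩ hs
    obtain ⟨g', hg', rfl⟩ := Finset.subset_image_iff.1 hs
    refine ⟨L, g', ?_, rfl⟩
    rw [image_ph]
    exact hC.dn g κ g' hg hg'
  un := by
    rintro G κ κ' ⟨L, g, hg, rfl⟩ ⟨L', g', hg', h⟩
    refine un_aux hC hg hg' h ?_
    rw [← image_ph i₀ L g, h, image_ph]
  ok := by
    rintro G κ ⟨L, g, hg, rfl⟩
    rw [image_ph]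
    exact hC.ok g κ hg

/-- the property (S) -/
theorem spl {K : Cls Q 𝒦} (hC : IsSys K C) (i₀ : ι)
    (hL : Nonempty (Combinatorics.Line (Gam C α κ₀) ι)) : Spl C (CC C α κ₀ i₀) α := by
  intro U hU
  by_cases hA : ∃ L : Combinatorics.Line (Gam C α κ₀) ι, ∀ x L', PP.r x L' ∈ U → L' = L
  · left
    obtain ⟨L, hL1⟩ := hA
    obtain ⟨i, hi⟩ := L.proper
    refine ⟨psi i, ?_⟩
    rintro G κ ⟨L', g, hg, rfl⟩ hGU
    have hψ : ∀ x, psi i (ph L' x) = if C.pt x ∈ α then crd (L'.idxFun i) x else x := by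
      intro x
      by_cases h : C.pt x ∈ α
      · rw [ph_pos L' h, if_pos h]
        rfl
      · rw [ph_neg L' h, if_neg h]
        rfl
    constructor
    · by_cases hα : ∀ x ∈ g, C.pt x ∈ α
      · have e1 : (g.image (ph L')).image (psi i) = g.image (crd (L'.idxFun i)) := by
          rw [Finset.image_image]
          refine Finset.image_congr fun x hx => ?_
          show psi i (ph L' x) = _
          rw [hψ, if_pos (hα x hx)]
        rw [e1]
        rcases crd_gd hC hg hα (L'.idxFun i) with ⟨-, h1⟩ | h1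
        · rw [h1]
          exact ⟨κ, hg⟩
        · exact ⟨_, h1⟩
      · push Not at hα
        obtain ⟨x, hx, hxα⟩ := hα
        have h1 := hGU (Finset.mem_image_of_mem _ hx)
        rw [ph_neg L' hxα] at h1
        have h2 := hL1 _ _ h1
        subst h2
        refine ⟨κ, ?_⟩
        have e1 : (g.image (ph L')).image (psi i) = g := by
          rw [Finset.image_image]
          conv_rhs => rw [← Finset.image_id' (s := g)]
          refine Finset.image_congr fun x hx => ?_
          show psi i (ph L' x) = _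
          rw [hψ, hi]
          exact ite_self _
        rw [e1]
        exact hg
    · intro y hy
      obtain ⟨x, hx, rfl⟩ := Finset.mem_image.1 hy
      rw [hψ, pt_ph]
      by_cases h : C.pt x ∈ α
      · rw [if_pos h, crd_pt]
      · rw [if_neg h]
  · right
    push Not at hA
    obtain ⟨L₁⟩ := hL
    obtain ⟨x₀, L₀, h0, -⟩ := hA L₁
    obtain ⟨x₂, L₂, h2, hne⟩ := hA L₀
    refine ⟨U.filter fun y => ¬ ∃ x L, y = PP.r x L ∧ L ≠ L₀,
      U.filter fun y => (∃ f, y = PP.w f ∧ (CC C α κ₀ i₀).pt y ∈ α) ∨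
        ∃ x L, y = PP.r x L ∧ L ≠ L₀, ?_, ?_, ?_, ?_, ?_⟩
    · ext y
      rw [Finset.mem_union, Finset.mem_filter, Finset.mem_filter]
      constructor
      · rintro (h | h)
        · exact h.1
        · exact h.1
      · intro h
        by_cases h1 : ∃ x L, y = PP.r x L ∧ L ≠ L₀
        · exact Or.inr ⟨h, Or.inr h1⟩
        · exact Or.inl ⟨h, h1⟩
    · intro h
      rw [← h] at h2
      exact (Finset.mem_filter.1 h2).2 ⟨x₂, L₂, rfl, hne⟩
    · intro h
      rw [← h] at h0
      rcases (Finset.mem_filter.1 h0).2 with ⟨f, hf, -⟩ | ⟨x, L, hx, hL⟩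
      · exact r_ne_w hf
      · exact hL (PP.r.inj hx).2.symm
    · rintro G κ ⟨L, g, hg, rfl⟩ hGU
      by_cases hLL : L = L₀
      · left
        intro y hy
        refine Finset.mem_filter.2 ⟨hGU hy, ?_⟩
        rintro ⟨x, L', rfl, hL'⟩
        obtain ⟨x', hx', h5⟩ := Finset.mem_image.1 hy
        by_cases h6 : C.pt x' ∈ α
        · rw [ph_pos L h6] at h5
          exact w_ne_r h5
        · rw [ph_neg L h6] at h5
          exact hL' ((PP.r.inj h5).2.symm.trans hLL)
      · right
        intro y hy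
        refine Finset.mem_filter.2 ⟨hGU hy, ?_⟩
        obtain ⟨x', hx', rfl⟩ := Finset.mem_image.1 hy
        by_cases h6 : C.pt x' ∈ α
        · left
          refine ⟨_, ph_pos L h6, ?_⟩
          rw [pt_ph]
          exact h6
        · right
          exact ⟨x', L, ph_neg L h6, hLL⟩
    · intro y hy
      obtain ⟨h1, h3⟩ := Finset.mem_inter.1 hy
      rcases (Finset.mem_filter.1 h3).2 with ⟨f, hf, h4⟩ | h4
      · exact h4
      · exact absurd h4 (Finset.mem_filter.1 h1).2

/-- the image of a guard is given by the word of the line -/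
theorem word {K : Cls Q 𝒦} (hC : IsSys K C) (g₀ : Gam C α κ₀)
    (L : Combinatorics.Line (Gam C α κ₀) ι) (g : Gam C α κ₀) :
    g.1.image (ph L) = g₀.1.image fun x => PP.w fun i => sel (L g i) x := by
  have hin : ∀ (g : Gam C α κ₀) (x : P), x ∈ g.1 → C.pt x ∈ α := by
    intro g x hx
    rw [← g.2.2]
    exact Finset.mem_image_of_mem _ hx
  have h1 : ∀ x ∈ g.1, ph L x = PP.w fun i => sel (L g i) x := by
    intro x hx
    rw [ph_pos L (hin g x hx)]
    congr 1
    funext i
    rcases ho : L.idxFun i with _ | h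
    · rw [L.apply_none g i ho, sel_self hC g hx]
      rfl
    · rw [L.apply_some ho]
      rfl
  have h2 : ∀ x y : P, C.pt x ∈ α → C.pt x = C.pt y →
      (PP.w fun i => sel (L g i) x : PP C α κ₀ ι) = PP.w fun i => sel (L g i) y := by
    intro x y hx hxy
    congr 1
    funext i
    exact sel_congr _ hx hxy
  ext y
  constructor
  · intro hy
    obtain ⟨x, hx, rfl⟩ := Finset.mem_image.1 hy
    obtain ⟨x', hx', hxx⟩ := sel_ex g₀ (hin g x hx)
    rw [h1 x hx, h2 x x' (hin g x hx) hxx.symm]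
    exact Finset.mem_image_of_mem _ hx'
  · intro hy
    obtain ⟨x, hx, rfl⟩ := Finset.mem_image.1 hy
    obtain ⟨x', hx', hxx⟩ := sel_ex g (hin g₀ x hx)
    rw [h2 x x' (hin g₀ x hx) hxx.symm, ← h1 x' hx']
    exact Finset.mem_image_of_mem _ hx'

end

end

theorem pf_PL : Pool.Agent.H53.GM.T_PL := by
  intro Q 𝒦 K P Y hP hY C α κ₀ hC
  by_cases hG : Nonempty Y ∧ Nonempty (Gam C α κ₀)
  · obtain ⟨⟨y₀⟩, ⟨g₀⟩⟩ := hG
    have hfin : Finite (Gam C α κ₀) := by
      unfold Gam
      infer_instance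
    obtain ⟨ι, hι, hHJ⟩ :=
      Combinatorics.Line.exists_mono_in_high_dimension (Gam C α κ₀) Y
    obtain ⟨L₁, -⟩ := hHJ fun _ => y₀
    obtain ⟨i₀, hi₀⟩ := L₁.proper
    refine ⟨PP C α κ₀ ι, ?_, CC C α κ₀ i₀, sys hC i₀, ?_, ?_, spl hC i₀ ⟨L₁⟩⟩
    · have h1 : Finite (Combinatorics.Line (Gam C α κ₀) ι) := by
        refine Finite.of_injective (fun L => L.idxFun) ?_
        intro L L' h
        cases L
        cases L'
        simp only at h
        subst h
        rfl
      refine Finite.of_injective (β := (ι → P) ⊕ (P × Combinatorics.Line (Gam C α κ₀) ι))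
        (fun y => match y with
          | PP.w f => Sum.inl f
          | PP.r x L => Sum.inr (x, L)) ?_
      intro y z h
      cases y with
      | w f => cases z with
        | w f' => rw [Sum.inl.inj h]
        | r x L => exact absurd h Sum.inl_ne_inr
      | r x L => cases z with
        | w f' => exact absurd h Sum.inr_ne_inl
        | r x' L' =>
          have h2 : (x, L) = (x', L') := Sum.inr.inj h
          obtain ⟨h3, h4⟩ := Prod.mk.inj h2
          rw [h3, h4]
    · rintro G κ ⟨L, g, hg, rfl⟩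
      exact ⟨g, hg, (image_ph i₀ L g).symm⟩
    · intro χ
      obtain ⟨L, c, hL⟩ := hHJ fun w => χ (g₀.1.image fun x => PP.w fun i => sel (w i) x)
      refine ⟨ph L, fun g κ hg => ⟨⟨L, g, hg, rfl⟩, fun x _ => pt_ph i₀ L x⟩, ?_⟩
      intro g g' hg hg' hα hα'
      have h1 := word hC g₀ L ⟨g, hg, hα⟩
      have h2 := word hC g₀ L ⟨g', hg', hα'⟩
      have h3 := hL ⟨g, hg, hα⟩
      have h4 := hL ⟨g', hg', hα'⟩
      simp only at h1 h2 h3 h4
      rw [h1, h2, h3, h4]
  · refine ⟨P, hP, C, hC, fun G κ hG => ⟨G, hG, rfl⟩, fun χ => ⟨fun x => x, Hm.refl C, ?_⟩, ?_⟩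
    · intro g g' hg hg' hα hα'
      exact absurd ⟨⟨χ ∅⟩, ⟨⟨g, hg, hα⟩⟩⟩ hG
    · intro U hU
      left
      refine ⟨fun x => x, fun G κ hGκ _ => ⟨⟨κ, ?_⟩, fun x _ => rfl⟩⟩
      have : G.image (fun x => x) = G := Finset.image_id'
      rw [this]
      exact hGκ

end Pool.Agent.H21.GM
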